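import Pool.Agent.T6.H15.AJ.Defs
import Pool.Agent.T6.H15.SQ.Defs

/-!
# Zero-cycles and one-cycles: definitions
-/

open CategoryTheory
open Pool.Agent.H914 Pool.Agent.H914.VarClass Pool.Agent.H914.VarClass.Obj Pool.Agent.R903
open Pool.Agent.T6.H15.BB Pool.Agent.T6.H15.AJ Pool.Agent.T6.H15.SQ

universe u v w

namespace Pool.Agent.T6.H15.ZC

variable {k : Type u} [Field k] {𝒱 : VarClass k} {C : ChowTheory.{u, v} 𝒱}

/-- `D z = 0` for algebraically trivial divisor classes `D` and homologically trivial one-cycles `z`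
on `X`. -/
def DivisorsByCurves (W : WeilTheory.{u, v, w} C) (X : 𝒱.Obj) : Prop :=
  ∀ (m : ℕ) (D z : C.CH X), m + 1 = X.dim → AlgTrivial W X 1 D → HomTrivial W X m z →
    NullProd D z

/-- `x z = 0` for algebraically trivial `x` and homologically trivial `z` such that `x z` is a
zero-cycle. -/
def ZeroProducts (W : WeilTheory.{u, v, w} C) : Prop :=
  ∀ (X : 𝒱.Obj) (n m : ℕ) (x z : C.CH X), 1 ≤ n → n + m = X.dim → AlgTrivial W X n x →
    HomTrivial W X m z → NullProd x z

/-- Homologically trivial correspondences from `Y` to `X` kill the algebraically trivial classes on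
`Y`, if the result is a zero-cycle. -/
def ZeroCorrespondences (W : WeilTheory.{u, v, w} C) : Prop :=
  ∀ (Y X : 𝒱.Obj) (n c : ℕ) (x : C.CH Y) (Γ : C.CH (Y.prod X)), 1 ≤ n →
    n + c = Y.dim + X.dim → AlgTrivial W Y n x → HomTrivial W (Y.prod X) c Γ →
    Null (corrAct C Γ x)

/-- Correspondences `Γ` in `CH^(dim X)(Y × X)` which act as zero on `H^(2 dim Y - 1)(Y)` kill the
algebraically trivial zero-cycles on `Y`. -/
def AlbaneseDetects (W : WeilTheory.{u, v, w} C) : Prop :=
  ∀ (Y X : 𝒱.Obj) (j : ℕ) (x : C.CH Y) (Γ : C.CH (Y.prod X)), j + 1 = 2 * Y.dim →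
    AlgTrivial W Y Y.dim x → InCH C (Y.prod X) X.dim Γ → Kills W Γ j → Null (corrAct C Γ x)

/-- Homologically trivial self-correspondences in `CH^(dim X)(X × X)`, `dim X ≥ 1`, kill the
algebraically trivial zero-cycles on `X`. -/
def SelfCorrespondences (W : WeilTheory.{u, v, w} C) : Prop :=
  ∀ (X : 𝒱.Obj) (x : C.CH X) (Γ : C.CH (X.prod X)), 1 ≤ X.dim → AlgTrivial W X X.dim x →
    HomTrivial W (X.prod X) X.dim Γ → Null (corrAct C Γ x)

variable {W : WeilTheory.{u, v, w} C}

/-- The Abel–Jacobi (Albanese) map is injective on the algebraically trivial zero-cycles on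
`X`. -/
def InjZero (A : AJTheory W) (X : 𝒱.Obj) : Prop := InjOnAlg A X X.dim

end Pool.Agent.T6.H15.ZC
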