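import Pool.Agent.T6.H15.AJ.Zero
import Pool.Agent.T6.H15.ZC.Defs

/-!
# Zero-cycles and one-cycles
-/

open CategoryTheory CategoryTheory.Limits AlgebraicGeometry
open Pool.Agent.H914 Pool.Agent.H914.VarClass Pool.Agent.H914.VarClass.Obj Pool.Agent.R903
open Pool.Agent.R903.WeilTheory Pool.Agent.T6.H15.BB Pool.Agent.T6.H15.AJ Pool.Agent.T6.H15.SQ

universe u v w

namespace Pool.Agent.T6.H15.ZC

variable {k : Type u} [Field k] {𝒱 : VarClass k} {C : ChowTheory.{u, v} 𝒱}
  {W : WeilTheory.{u, v, w} C} {X Y Z : 𝒱.Obj}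

lemma comp_left' {c d r : ℕ} {α : C.CH (X.prod Y)} {β : C.CH (Y.prod Z)}
    (hα : HomTrivial W (X.prod Y) c α) (hβ : β ∈ C.gr (Y.prod Z) d) (h : c + d = r + Y.dim) :
    HomTrivial W (X.prod Z) r (C.comp α β) :=
  homTrivial_mk (C.comp_mem hα.1 hβ h) (by
    rw [ChowTheory.comp, W.cl_push, W.cl_mul, W.cl_pull, W.cl_pull, hα.cl, map_zero, zero_mul,
      map_zero])

lemma mulC_homTrivial {m : ℕ} {z : C.CH X} (hz : HomTrivial W X m z) :
    HomTrivial W (X.prod X) (m + X.dim) (C.span (𝟙 X) (𝟙 X) z) :=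
  homTrivial_mk (C.span_mem _ _ hz.1 (by omega)) (by
    rw [ChowTheory.span, W.cl_push, hz.cl, map_zero])

variable (A : AJTheory W)

/-- one-cycles in dimension `d + 1` and zero-cycles in dimension `d` -/
theorem down (hC : C.Polarized) (d : ℕ) (h : ∀ X : 𝒱.Obj, X.dim = d + 1 → DivisorsByCurves W X)
    (X : 𝒱.Obj) (hX : X.dim = d) : InjZero A X := by
  refine (injOnAlg_iff A hC X X.dim).2 fun E hE γ y hγ hy => ?_
  have h1 : C.pull (fst E X) y * γ = 0 :=
    h (E.prod X) (by rw [dim_prod, hE, hX, add_comm]) X.dim _ _ (by rw [dim_prod, hE, add_comm])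
      ((algTrivial_self hE hy).pull _) hγ
  rw [corrAct_eq, C.act_apply, mul_comm, h1, map_zero]

/-- a class in the kernel -/
lemma act_zero_of {n c j : ℕ} {x : C.CH Y} {Γ : C.CH (Y.prod X)} (h : InjZero A X)
    (hn : n + c = Y.dim + X.dim) (hx : AlgTrivial W Y n x) (hΓ : Γ ∈ C.gr (Y.prod X) c)
    (hj : j + 1 = 2 * n) (hk : Kills W Γ j) : C.act Γ x = 0 := by
  refine h _ (hx.act hΓ (by omega)) ?_
  rw [aj_act A (c := c) hΓ (by omega) hx.homTrivial]
  exact A.corr_eq_zero n X.dim c j _ hΓ (by omega) hj hk _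

theorem level (X : 𝒱.Obj) (h : InjZero A X) : DivisorsByCurves W X := by
  intro m D z hm hD hz
  have h1 := mulC_homTrivial hz
  have h2 : C.act (C.span (𝟙 X) (𝟙 X) z) D = 0 :=
    act_zero_of A (n := 1) (j := 1) h (by omega) hD h1.1 rfl (h1.kills _)
  rw [act_mulC] at h2
  change D * z = 0
  rw [mul_comm, h2]

theorem main_tfae (hC : C.Polarized) :
    [ ∀ X : 𝒱.Obj, InjZero A X, ∀ X : 𝒱.Obj, DivisorsByCurves W X, ZeroProducts W,
      ZeroCorrespondences W, AlbaneseDetects W, SelfCorrespondences W ].TFAE := by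
  tfae_have 1 → 2 := fun h X => level A X (h X)
  tfae_have 2 → 1 := fun h X => down A hC X.dim (fun X' _ => h X') X rfl
  tfae_have 1 → 4 := by
    intro h Y X n c x Γ hn hd hx hΓ
    exact act_zero_of A (j := 2 * n - 1) (h X) hd hx hΓ.1 (by omega) (hΓ.kills _)
  tfae_have 4 → 3 := by
    intro h X n m x z hn hd hx hz
    have h1 : C.act (C.span (𝟙 X) (𝟙 X) z) x = 0 :=
      h X X n (m + X.dim) x _ hn (by omega) hx (mulC_homTrivial hz)
    rw [act_mulC] at h1
    change x * z = 0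
    rw [mul_comm, h1]
  tfae_have 3 → 2 := fun h X m D z hm hD hz => h X 1 m D z le_rfl (by omega) hD hz
  tfae_have 1 → 5 := by
    intro h Y X j x Γ hj hx hΓ hk
    exact act_zero_of A (h X) rfl hx hΓ hj hk
  tfae_have 5 → 6 := by
    intro h X x Γ hX hx hΓ
    exact h X X (2 * X.dim - 1) x Γ (by omega) hx hΓ.1 (hΓ.kills _)
  tfae_have 6 → 1 := by
    intro h X
    refine (injOnAlg_iff A hC X X.dim).2 fun E hE γ y hγ hy => ?_
    obtain ⟨e, he, hde⟩ := exists_deg_one hC hE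
    obtain ⟨o, ho, hdo⟩ := exists_point hC X
    have h1 : HomTrivial W ((E.prod X).prod X) X.dim (C.comp (C.graph (fst E X)) γ) :=
      HomTrivial.comp_right (C.graph_mem _) hγ (by rw [add_comm])
    have h2 : C.span (snd E X) (𝟙 _) (C.pull (fst E X) e) ∈
        C.gr (X.prod (E.prod X)) (1 + X.dim) :=
      C.span_mem _ _ (C.pull_mem _ he) (by rw [dim_prod]; omega)
    have h3 := comp_left' h1 h2 (r := (E.prod X).dim) (by rw [dim_prod, hE]; omega)
    have h4 : AlgTrivial W (E.prod X) (E.prod X).dim (C.ext y o) := by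
      have := (algTrivial_self hE hy).ext ho
      rwa [dim_prod, hE]
    have h5 : C.act _ (C.ext y o) = 0 := h (E.prod X) _ _ (by rw [dim_prod, hE]; omega) h4 h3
    rw [C.act_comp, C.act_comp, C.act_graph, push_fst_ext, hdo, one_smul, C.act_span,
      C.push_id] at h5
    have h6 := congrArg (C.push (snd E X)) h5
    have h7 : C.pull (fst E X) e * C.pull (snd E X) (C.act γ y) = C.ext e (C.act γ y) := rfl
    rw [h7, push_snd_ext, hde, one_smul, map_zero] at h6
    exact h6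
  tfae_finish

end Pool.Agent.T6.H15.ZC
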